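import Mathlib
import Pool.Agent.H80.UnexpDefs
import Pool.Agent.H80.Unexp

open Pool.Agent.H80.Unexp

theorem Pool.Agent.Results.MP_b2f0ea_ag.CubicInP5.result :
    ∃ Z : Finset (Fin (5 + 1) → ℂ), Submodule.span ℂ (Z : Set (Fin (5 + 1) → ℂ)) = ⊤ ∧
      (∀ S ⊆ Z, S.card ≤ 5 + 1 → LinearIndependent ℂ (fun p : S => (p : Fin (5 + 1) → ℂ))) ∧
      ∀ P : Fin (5 + 1) → ℂ, P ≠ 0 →
        max 0 ((dimPart (idealOf (Z : Set (Fin (5 + 1) → ℂ))) 3 : ℤ) - (Nat.choose (3 + 5 - 2) 5 : ℤ)) <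
          (dimPart (idealOf (Z : Set (Fin (5 + 1) → ℂ)) ⊓ idealOf {P} ^ (3 - 1)) 3 : ℤ) := by
  refine ⟨Z, span_top, lgp, fun P hP => ?_⟩
  have h1 := main hP
  have h2 : 6 ≤ dimPart (idealOf (n := 5) Z) 3 := six_le
  have h3 : Nat.choose (3 + 5 - 2) 5 = 6 := by decide
  rw [h3, max_lt_iff]
  constructor
  · show (0 : ℤ) < (dimPart (idealOf (n := 5) Z ⊓ idealOf {P} ^ 2) 3 : ℕ)
    omega
  · show _ < ((dimPart (idealOf (n := 5) Z ⊓ idealOf {P} ^ 2) 3 : ℕ) : ℤ)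
    omega
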